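import Pool.Agent.X206.TorusRadial

/-!
# MP_919c6d_an : radial approaches with decreasing radii along which convergence fails
-/

set_option autoImplicit false

open MeasureTheory Filter Topology
open Pool.Agent.X206.TorusRadial

namespace Pool.Agent.Results.MP_919c6d_an.DecreasingRadii

/-- `r` is a radial approach (with finitely supported radii vectors, so in `c_0`) with radii
decreasing in `n`. -/
structure IsApproach (r : ℕ → ℕ → Set.Ico (0 : ℝ) 1) : Prop where
  finite_support : ∀ k, ∃ K, ∀ n, K ≤ n → (r k n : ℝ) = 0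
  monotone : ∀ n, Monotone fun k => r k n
  tendsto : ∀ n, Tendsto (fun k => (r k n : ℝ)) atTop (𝓝 1)
  decreasing : ∀ k n, r k (n + 1) ≤ r k n

/-- **Main result.** There is `f ∈ H^∞(𝕋^∞)` such that for almost every boundary point there is a
radial approach with radii decreasing in `n` along which `f` tends to `0` although
`f(e^{iθ}) ≠ 0`; in particular convergence to the boundary value fails. -/
theorem result : ∃ f : TI → ℂ, HInf f ∧ ∀ᵐ θ ∂haar,
    ∃ r : ℕ → ℕ → Set.Ico (0 : ℝ) 1, IsApproach r ∧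
      f θ ≠ 0 ∧ Tendsto (fun k => radial f (r k) θ) atTop (𝓝 0) ∧
      ¬ Tendsto (fun k => radial f (r k) θ) atTop (𝓝 (f θ)) := by
  classical
  obtain ⟨f, hf, hf0, s, t, P, hPf, hPn, R, hsm, htm, ht1, hanti, hR1, hRt, hR3, hmain⟩ := core
  refine ⟨f, hf, ?_⟩
  filter_upwards [hmain, hf0] with θ h1 h2
  let p : ∀ j, P j := fun j =>
    if h : ∃ p : P j, ‖radial f (R j p) θ‖ ≤ Real.exp (-(j : ℝ)) then h.choose
    else Classical.choice (hPn j)
  have hp : ∀ᶠ j : ℕ in atTop, ‖radial f (R j (p j)) θ‖ ≤ Real.exp (-(j : ℝ)) := by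
    filter_upwards [h1] with j hj
    simp only [p, hj, dif_pos]
    exact hj.choose_spec
  have hT : Tendsto (fun k => radial f (R k (p k)) θ) atTop (𝓝 0) := by
    have h3 : Tendsto (fun j : ℕ => Real.exp (-(j : ℝ))) atTop (𝓝 0) :=
      Real.tendsto_exp_neg_atTop_nhds_zero.comp tendsto_natCast_atTop_atTop
    exact squeeze_zero_norm' hp h3
  refine ⟨fun k => R k (p k), ⟨fun k => ⟨s (k + 1), fun n hn => hR3 k (p k) n hn⟩, ?_, ?_,
    fun k n => hanti _ _ (Nat.le_succ n)⟩, h2, hT, fun h => h2 (tendsto_nhds_unique h hT)⟩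
  · intro n
    refine monotone_nat_of_le_succ fun k => ?_
    rcases lt_or_ge n (s (k + 1)) with h | h
    · rw [hR1 (k + 1) (p (k + 1)) n h]
      exact (hRt k (p k) n).trans (htm (Nat.le_succ k))
    · change (R k (p k) n : ℝ) ≤ R (k + 1) (p (k + 1)) n
      rw [hR3 k (p k) n h]
      exact (R (k + 1) (p (k + 1)) n).2.1
  · intro n
    refine ht1.congr' ?_
    filter_upwards [eventually_ge_atTop (n + 1)] with k hk
    rw [hR1 k (p k) n (lt_of_lt_of_le (Nat.lt_of_succ_le hk) (hsm.id_le _))]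

end Pool.Agent.Results.MP_919c6d_an.DecreasingRadii
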